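import Pool.Agent.H794R3.SmallSub.Rel

/-!
The small-subalgebra function `ηB*(n,d)` of Ananyan and Hochster grows at least exponentially in `n`
for all `d ≥ 2` and all `η`: `ηB*(n,d) ≥ 2^(n-1)`, already for `n` quadrics.
-/

set_option autoImplicit false

namespace Pool.Agent.Results.MP_c112f0_ag.ExponentialLowerBound

open MvPolynomial

universe u

/-- Serre's condition `R_η`: all localizations at primes of height at most `η` are regular. -/
def SerreR (η : ℕ) (A : Type u) [CommRing A] : Prop :=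
  ∀ (p : Ideal A) [p.IsPrime], p.height ≤ (η : ℕ∞) → IsRegularLocalRing (Localization.AtPrime p)

/-- `H_1, …, H_s` is an `R_η`-sequence in `A`: it is a regular sequence and each of the rings
`A/(H_1, …, H_i)`, `0 ≤ i ≤ s`, satisfies Serre's condition `R_η`. -/
def IsRSeq (η : ℕ) {A : Type u} [CommRing A] {s : ℕ} (H : Fin s → A) : Prop :=
  RingTheory.Sequence.IsRegular A (List.ofFn H) ∧
    ∀ i ≤ s, SerreR η (A ⧸ Ideal.ofList ((List.ofFn H).take i))

/-- `h` is a `K`-linear combination of those `G_j` having one common degree. -/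
def CommonDegree {K : Type u} [Field K] {N t : ℕ} (G : Fin t → MvPolynomial (Fin N) K)
    (e : Fin t → ℕ) (h : MvPolynomial (Fin N) K) : Prop :=
  ∃ c : ℕ, h ∈ Submodule.span K {g | ∃ j, e j = c ∧ g = G j}

/-- The two requirements of the definition of `ηB*` on the forms `G_1, …, G_t` (where `e j` is the
degree of `G_j`) with respect to the given forms `F_1, …, F_n`. -/
structure IsSmallSubalgebra (η : ℕ) {K : Type u} [Field K] {N n t : ℕ}
    (F : Fin n → MvPolynomial (Fin N) K) (G : Fin t → MvPolynomial (Fin N) K)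
    (e : Fin t → ℕ) : Prop where
  /-- the `G_j` have positive degree -/
  pos : ∀ j, 1 ≤ e j
  /-- `G_j` is a form of degree `e j` -/
  homog : ∀ j, (G j).IsHomogeneous (e j)
  /-- `G_1, …, G_t` is a regular sequence -/
  regular : RingTheory.Sequence.IsRegular (MvPolynomial (Fin N) K) (List.ofFn G)
  /-- every `F_i` lies in the subalgebra `K[G_1, …, G_t]` -/
  mem : ∀ i, F i ∈ Algebra.adjoin K (Set.range G)
  /-- every sequence of linearly independent forms, each a linear combination of the `G_j` of one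
  common degree, is an `R_η`-sequence -/
  cond : ∀ (s : ℕ) (H : Fin s → MvPolynomial (Fin N) K), LinearIndependent K H →
    (∀ i, CommonDegree G e (H i)) → IsRSeq η H

/-- `s` is an upper bound for `ηB*(n,d)`: for every algebraically closed field `K`, every `N` and
all forms `F_1, …, F_n` of positive degree at most `d` in `K[x_1, …, x_N]` there are `t ≤ s` forms
`G_1, …, G_t` of degree at most `d` with the two required properties. -/
def Bound (η n d s : ℕ) : Prop :=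
  ∀ (K : Type u) [Field K] [IsAlgClosed K] (N : ℕ) (F : Fin n → MvPolynomial (Fin N) K)
    (a : Fin n → ℕ), (∀ i, 1 ≤ a i ∧ a i ≤ d ∧ (F i).IsHomogeneous (a i)) →
    ∃ t ≤ s, ∃ (G : Fin t → MvPolynomial (Fin N) K) (e : Fin t → ℕ),
      (∀ j, e j ≤ d) ∧ IsSmallSubalgebra η F G e

/-- `ηB*(n,d)`, the least bound (`⊤` if there were none). -/
noncomputable def etaB (η n d : ℕ) : ℕ∞ := ⨅ (s : ℕ) (_ : Bound.{u} η n d s), (s : ℕ∞)

open Pool.Agent.H794R3.SmallSub in
theorem quadrics (K : Type u) [Field K] (n : ℕ) (hn : 1 ≤ n) :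
    ∃ F : Fin n → MvPolynomial (Fin (2 ^ (n - 1))) K, (∀ i, (F i).IsHomogeneous 2) ∧
      ∀ (t : ℕ) (G : Fin t → MvPolynomial (Fin (2 ^ (n - 1))) K) (e : Fin t → ℕ),
        (∀ j, 1 ≤ e j) → (∀ j, (G j).IsHomogeneous (e j)) →
        RingTheory.Sequence.IsRegular (MvPolynomial (Fin (2 ^ (n - 1))) K) (List.ofFn G) →
        (∀ i, F i ∈ Algebra.adjoin K (Set.range G)) → 2 ^ (n - 1) ≤ t := by
  refine ⟨fun i => if i.1 = 0 then x (2 ^ (n - 1)) 0 ^ 2 else q (2 ^ (n - 1)) (i.1 - 1), ?_, ?_⟩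
  · intro i
    simp only
    split_ifs
    · exact (x_homog 0).pow 2
    · exact q_homog _
  · intro t G e he hG hreg hF
    refine lower (n - 1) G e he hG hreg ?_ ?_
    · have := hF ⟨0, hn⟩
      simpa using this
    · intro k hk
      have := hF ⟨k + 1, by omega⟩
      simpa using this

theorem bound_ge (η n d s : ℕ) (hn : 1 ≤ n) (hd : 2 ≤ d) (h : Bound.{u} η n d s) :
    2 ^ (n - 1) ≤ s := by
  obtain ⟨F, hF, hlow⟩ := quadrics (AlgebraicClosure (ULift.{u} ℚ)) n hn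
  obtain ⟨t, hts, G, e, -, hG⟩ := h (AlgebraicClosure (ULift.{u} ℚ)) _ F (fun _ => 2)
    (fun i => ⟨by norm_num, hd, hF i⟩)
  exact (hlow t G e hG.pos hG.homog hG.regular hG.mem).trans hts

theorem etaB_ge (η n d : ℕ) (hn : 1 ≤ n) (hd : 2 ≤ d) :
    ((2 ^ (n - 1) : ℕ) : ℕ∞) ≤ etaB.{u} η n d := by
  unfold etaB
  refine le_iInf fun s => le_iInf fun h => ?_
  exact_mod_cast bound_ge η n d s hn hd h

theorem not_poly (C a : ℝ) (h : ∀ n : ℕ, 1 ≤ n → ((2 ^ (n - 1) : ℕ) : ℝ) ≤ C * (n : ℝ) ^ a) :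
    False := by
  obtain ⟨k, hk⟩ := exists_nat_ge a
  have h1 : ∀ n : ℕ, 1 ≤ n → (2 : ℝ) ^ n ≤ 2 * (|C| + 1) * (n : ℝ) ^ k := by
    intro n hn
    have h2 := h n hn
    have h3 : (n : ℝ) ^ a ≤ (n : ℝ) ^ k := by
      rw [← Real.rpow_natCast]
      exact Real.rpow_le_rpow_of_exponent_le (by exact_mod_cast hn) hk
    have h4 : (0 : ℝ) ≤ (n : ℝ) ^ a := by positivity
    have h5 : ((2 ^ (n - 1) : ℕ) : ℝ) ≤ (|C| + 1) * (n : ℝ) ^ k := by
      calc ((2 ^ (n - 1) : ℕ) : ℝ) ≤ C * (n : ℝ) ^ a := h2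
        _ ≤ (|C| + 1) * (n : ℝ) ^ a := by
          apply mul_le_mul_of_nonneg_right _ h4
          linarith [le_abs_self C]
        _ ≤ (|C| + 1) * (n : ℝ) ^ k := by
          apply mul_le_mul_of_nonneg_left h3
          positivity
    have h6 : (2 : ℝ) ^ n = 2 * ((2 ^ (n - 1) : ℕ) : ℝ) := by
      push_cast
      rw [← pow_succ']
      congr 1
      omega
    rw [h6]
    linarith
  have h2 := isLittleO_pow_const_const_pow_of_one_lt (R := ℝ) k (r := 2) (by norm_num)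
  have h3 : (0 : ℝ) < 1 / (4 * (|C| + 1)) := by positivity
  have h4 := (h2.bound h3).and (Filter.eventually_ge_atTop 1)
  obtain ⟨n, h5, h6⟩ := h4.exists
  have h7 := h1 n h6
  rw [Real.norm_of_nonneg (by positivity), Real.norm_of_nonneg (by positivity)] at h5
  have h8 : 2 * (|C| + 1) * (n : ℝ) ^ k ≤ 2 * (|C| + 1) * (1 / (4 * (|C| + 1)) * 2 ^ n) := by
    apply mul_le_mul_of_nonneg_left h5
    positivity
  have h9 : 2 * (|C| + 1) * (1 / (4 * (|C| + 1)) * 2 ^ n) = (2 : ℝ) ^ n / 2 := by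
    have : |C| + 1 ≠ 0 := by positivity
    field_simp
    ring
  have h10 : (0 : ℝ) < 2 ^ n := by positivity
  linarith

/-- (1) `ηB*(n,d) ≥ 2^(n-1)` for all `n ≥ 1`, `d ≥ 2` and all `η`. (2) Hence for no `d ≥ 2` and no
`η` is `ηB*(n,d)` bounded by a polynomial (or any power) of `n`. (3) Over every field `K` and for
every `n ≥ 1` there are `n` quadrics in `2^(n-1)` variables such that every regular sequence of
forms `G_1, …, G_t` of positive degree whose subalgebra `K[G_1, …, G_t]` contains them has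
`t ≥ 2^(n-1)`. -/
theorem result :
    (∀ η n d : ℕ, 1 ≤ n → 2 ≤ d → ((2 ^ (n - 1) : ℕ) : ℕ∞) ≤ etaB.{u} η n d) ∧
    (∀ η d : ℕ, 2 ≤ d → ¬ ∃ C a : ℝ, ∀ n : ℕ, 1 ≤ n →
      ∃ s : ℕ, etaB.{u} η n d ≤ (s : ℕ∞) ∧ (s : ℝ) ≤ C * (n : ℝ) ^ a) ∧
    (∀ (K : Type u) [Field K] (n : ℕ), 1 ≤ n →
      ∃ F : Fin n → MvPolynomial (Fin (2 ^ (n - 1))) K, (∀ i, (F i).IsHomogeneous 2) ∧
        ∀ (t : ℕ) (G : Fin t → MvPolynomial (Fin (2 ^ (n - 1))) K) (e : Fin t → ℕ),
          (∀ j, 1 ≤ e j) → (∀ j, (G j).IsHomogeneous (e j)) →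
          RingTheory.Sequence.IsRegular (MvPolynomial (Fin (2 ^ (n - 1))) K) (List.ofFn G) →
          (∀ i, F i ∈ Algebra.adjoin K (Set.range G)) → 2 ^ (n - 1) ≤ t) := by
  refine ⟨fun η n d hn hd => etaB_ge η n d hn hd, ?_, fun K _ n hn => quadrics K n hn⟩
  rintro η d hd ⟨C, a, h⟩
  apply not_poly C a
  intro n hn
  obtain ⟨s, h1, h2⟩ := h n hn
  have h3 := (etaB_ge.{u} η n d hn hd).trans h1
  have h4 : 2 ^ (n - 1) ≤ s := by exact_mod_cast h3
  calc ((2 ^ (n - 1) : ℕ) : ℝ) ≤ s := by exact_mod_cast h4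
    _ ≤ _ := h2

end Pool.Agent.Results.MP_c112f0_ag.ExponentialLowerBound
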